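import Pool.Agent.H75.TS.Main

/-!
# MP_0fca13: the Tate conjecture for a positive proportion of all elliptic surfaces over `P¹` over
# a fixed finite field of odd order

`K = F(t)`, `F` any finite field of odd order, and `E_f : y² = x³ + a x² + b x + c` for
`f = (a, b, c)`.  `Ell F n` is the set of all `f ∈ F[t]³` with `deg a ≤ 2n`, `deg b ≤ 4n`,
`deg c ≤ 6n` for which `E_f` is nonsingular; `Sht F n` is the subset `a = 0`, and `ShtM F n` the
subset of `Sht F n` of the equations which are minimal at all places and have height exactly `n`.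
`Sel f` is the 2-Selmer group of `E_f` in its classical description.  In each of the three families
(in the last two if the characteristic is not 3) the proportion of the curves with trivial 2-Selmer
group is bounded below by a positive constant for large `n`.

If `Sel f` is trivial, then the 2-primary parts of the Tate-Shafarevich group of `E_f` and of the
Brauer group of the elliptic surface `X_f` over `P¹` with generic fibre `E_f` vanish, and the Tate
conjecture holds for `X_f` by the theorem of Artin, Tate and Milne.

The proof uses twists of almost every curve of a subfamily with local conditions (class group,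
reciprocity, counting of integral symmetric matrices, and a Markov chain).
-/

open Polynomial Pool.AVR Pool.AVS Pool.TS

namespace Pool.Agent.H75.TS.Candidate.EllipticSurfaces

open Classical in
theorem result (F : Type) [Field F] [Finite F] (h2 : (2 : F) ≠ 0) :
    (∃ δ : ℝ, 0 < δ ∧ ∃ N : ℕ, ∀ n : ℕ, N ≤ n → (Ell F n).Finite ∧ 0 < (Ell F n).ncard ∧
      δ * (Ell F n).ncard ≤ {f ∈ Ell F n | (Sel f).ncard = 1 ∧ Finite (EK f)}.ncard) ∧
    ((3 : F) ≠ 0 →
      (∃ δ : ℝ, 0 < δ ∧ ∃ N : ℕ, ∀ n : ℕ, N ≤ n → (Sht F n).Finite ∧ 0 < (Sht F n).ncard ∧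
        δ * (Sht F n).ncard ≤ {f ∈ Sht F n | (Sel f).ncard = 1 ∧ Finite (EK f)}.ncard) ∧
      ∃ δ : ℝ, 0 < δ ∧ ∃ N : ℕ, ∀ n : ℕ, N ≤ n → (ShtM F n).Finite ∧ 0 < (ShtM F n).ncard ∧
        δ * (ShtM F n).ncard ≤ {f ∈ ShtM F n | (Sel f).ncard = 1 ∧ Finite (EK f)}.ncard) :=
  mainT F h2

end Pool.Agent.H75.TS.Candidate.EllipticSurfaces
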